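import Mathlib

/-!
# The fourth difference of `Tr (H + y K) ^ 6`
-/

set_option autoImplicit false

namespace Pool.Agent.Lib_helper54.GC56

open Matrix

variable {ι : Type*} [Fintype ι] [DecidableEq ι]

/-- The cube of `H + y K`, sorted by powers of `y`. -/
theorem cube_expand (H K : Matrix ι ι ℂ) (y : ℂ) :
    (H + y • K) ^ 3 = H * H * H + y • (H * H * K + H * K * H + K * H * H) +
      (y ^ 2) • (H * K * K + K * H * K + K * K * H) + (y ^ 3) • (K * K * K) := by
  simp only [pow_succ, pow_zero, one_mul, add_mul, mul_add, smul_mul_assoc, mul_smul_comm, smul_add,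
    smul_smul, mul_assoc]
  module

/-- The trace of the sixth power of `H + y K` as a polynomial in `y`. -/
theorem six_expand (H K : Matrix ι ι ℂ) (y : ℂ) :
    ((H + y • K) ^ 6).trace =
      (H ^ 6).trace +
      y * (2 * ((H * H * H) * (H * H * K + H * K * H + K * H * H)).trace) +
      y ^ 2 * (2 * ((H * H * H) * (H * K * K + K * H * K + K * K * H)).trace +
        ((H * H * K + H * K * H + K * H * H) * (H * H * K + H * K * H + K * H * H)).trace) +
      y ^ 3 * (2 * ((H * H * H) * (K * K * K)).trace +
        2 * ((H * H * K + H * K * H + K * H * H) * (H * K * K + K * H * K + K * K * H)).trace) +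
      y ^ 4 * (2 * ((H * H * K + H * K * H + K * H * H) * (K * K * K)).trace +
        ((H * K * K + K * H * K + K * K * H) * (H * K * K + K * H * K + K * K * H)).trace) +
      y ^ 5 * (2 * ((H * K * K + K * H * K + K * K * H) * (K * K * K)).trace) +
      y ^ 6 * (K ^ 6).trace := by
  have e6 : (H + y • K) ^ 6 = (H + y • K) ^ 3 * (H + y • K) ^ 3 := by rw [← pow_add]
  have h6 : H ^ 6 = (H * H * H) * (H * H * H) := by
    simp only [pow_succ, pow_zero, one_mul, mul_assoc]
  have k6 : K ^ 6 = (K * K * K) * (K * K * K) := by
    simp only [pow_succ, pow_zero, one_mul, mul_assoc]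
  rw [e6, cube_expand, h6, k6]
  generalize hA0 : H * H * H = A0
  generalize hA1 : H * H * K + H * K * H + K * H * H = A1
  generalize hA2 : H * K * K + K * H * K + K * K * H = A2
  generalize hA3 : K * K * K = A3
  simp only [add_mul, mul_add, smul_mul_assoc, mul_smul_comm, trace_add, trace_smul, smul_eq_mul]
  rw [trace_mul_comm A1 A0, trace_mul_comm A2 A0, trace_mul_comm A3 A0, trace_mul_comm A2 A1,
    trace_mul_comm A3 A1, trace_mul_comm A3 A2]
  ring

/-- The coefficient of `y ^ 4`. -/
theorem coef_four (H K : Matrix ι ι ℂ) :
    2 * ((H * H * K + H * K * H + K * H * H) * (K * K * K)).trace +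
      ((H * K * K + K * H * K + K * K * H) * (H * K * K + K * H * K + K * K * H)).trace =
      3 * ∑ k ∈ Finset.range 5, (H * K ^ k * H * K ^ (4 - k)).trace := by
  simp only [Finset.sum_range_succ, Finset.sum_range_zero, zero_add, pow_zero, pow_one, mul_one,
    pow_succ, one_mul, Nat.sub_zero, Nat.reduceSub, add_mul, mul_add, trace_add]
  -- canonical words
  have a1 : (K * H * H * (K * K * K)).trace = (H * H * (K * K * K * K)).trace := by
    rw [show K * H * H * (K * K * K) = K * (H * H * (K * K * K)) by simp only [mul_assoc],
      trace_mul_comm K]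
    simp only [mul_assoc]
  have a2 : (H * K * K * (K * K * H)).trace = (H * H * (K * K * K * K)).trace := by
    rw [show H * K * K * (K * K * H) = (H * K * K * K * K) * H by simp only [mul_assoc],
      trace_mul_comm _ H]
    simp only [mul_assoc]
  have a3 : (K * K * H * (H * K * K)).trace = (H * H * (K * K * K * K)).trace := by
    rw [show K * K * H * (H * K * K) = (K * K) * (H * H * K * K) by simp only [mul_assoc],
      trace_mul_comm (K * K)]
    simp only [mul_assoc]
  have a4 : (H * H * K * (K * K * K)).trace = (H * H * (K * K * K * K)).trace := by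
    simp only [mul_assoc]
  have a5 : (H * (K * K * K * K) * H).trace = (H * H * (K * K * K * K)).trace := by
    rw [trace_mul_comm _ H]
    simp only [mul_assoc]
  have b1 : (H * K * H * (K * K * K)).trace = (H * K * H * K * K * K).trace := by
    simp only [mul_assoc]
  have b2 : (H * K * K * (K * H * K)).trace = (H * K * H * K * K * K).trace := by
    rw [show H * K * K * (K * H * K) = (H * K * K * K) * (H * K) by simp only [mul_assoc],
      trace_mul_comm]
    simp only [mul_assoc]
  have b3 : (K * H * K * (H * K * K)).trace = (H * K * H * K * K * K).trace := by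
    rw [show K * H * K * (H * K * K) = K * (H * K * H * K * K) by simp only [mul_assoc],
      trace_mul_comm K]
  have b4 : (K * H * K * (K * K * H)).trace = (H * K * H * K * K * K).trace := by
    rw [show K * H * K * (K * K * H) = (K * H * K * K * K) * H by simp only [mul_assoc],
      trace_mul_comm _ H, show H * (K * H * K * K * K) = H * K * H * K * K * K by
        simp only [mul_assoc]]
  have b5 : (K * K * H * (K * H * K)).trace = (H * K * H * K * K * K).trace := by
    rw [show K * K * H * (K * H * K) = (K * K) * (H * K * H * K) by simp only [mul_assoc],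
      trace_mul_comm (K * K)]
    simp only [mul_assoc]
  have b6 : (H * (K * K * K) * H * K).trace = (H * K * H * K * K * K).trace := by
    rw [show H * (K * K * K) * H * K = (H * K * K * K) * (H * K) by simp only [mul_assoc],
      trace_mul_comm]
    simp only [mul_assoc]
  have b7 : (H * K * H * (K * K * K)).trace = (H * K * H * K * K * K).trace := b1
  have c1 : (H * K * K * (H * K * K)).trace = (H * (K * K) * H * (K * K)).trace := by
    simp only [mul_assoc]
  have c2 : (K * H * K * (K * H * K)).trace = (H * (K * K) * H * (K * K)).trace := by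
    rw [show K * H * K * (K * H * K) = K * (H * K * K * H * K) by simp only [mul_assoc],
      trace_mul_comm K]
    simp only [mul_assoc]
  have c3 : (K * K * H * (K * K * H)).trace = (H * (K * K) * H * (K * K)).trace := by
    rw [show K * K * H * (K * K * H) = (K * K) * (H * K * K * H) by simp only [mul_assoc],
      trace_mul_comm (K * K)]
    simp only [mul_assoc]
  rw [a1, a2, a3, a4, a5, b1, b2, b3, b4, b5, b6, c1, c2, c3]
  ring

/-- **The fourth difference of the trace of the sixth power.** -/
theorem word6 (H K : Matrix ι ι ℂ) (h : ℂ) :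
    ((H + (2 * h) • K) ^ 6).trace + ((H - (2 * h) • K) ^ 6).trace -
      4 * (((H + h • K) ^ 6).trace + ((H - h • K) ^ 6).trace) + 6 * (H ^ 6).trace =
      72 * h ^ 4 * ∑ k ∈ Finset.range 5, (H * K ^ k * H * K ^ (4 - k)).trace +
        120 * h ^ 6 * (K ^ 6).trace := by
  have e1 : H - (2 * h) • K = H + (-(2 * h)) • K := by rw [neg_smul, sub_eq_add_neg]
  have e2 : H - h • K = H + (-h) • K := by rw [neg_smul, sub_eq_add_neg]
  rw [e1, e2, six_expand H K (2 * h), six_expand H K (-(2 * h)), six_expand H K h,
    six_expand H K (-h), coef_four]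
  ring

end Pool.Agent.Lib_helper54.GC56
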