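import Pool.Agent.Lib_helper95.RC.Int
import Pool.Agent.Lib_helper95.RC.Defs24
import Pool.Agent.Lib_helper54.GC56.W6

/-!
# The fourth difference in `y` of `In p A (D + y A) 6`
-/

set_option autoImplicit false

open scoped BigOperators ComplexOrder Kronecker MatrixOrder Topology
open MeasureTheory Set Matrix Filter

namespace Pool.Agent.Lib_helper54.GC56

open Pool.Agent.RC

variable {ι : Type} [Fintype ι] [DecidableEq ι]

/-- `∑_k x^k y^(4-k) / ((x+r)^(k+1) (y+r)^(5-k))` -/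
noncomputable def fk (x y r : ℝ) : ℝ :=
  ∑ k ∈ Finset.range 5, x ^ k * y ^ (4 - k) / ((x + r) ^ (k + 1) * (y + r) ^ (5 - k))

/-- the word sum -/
noncomputable def wd (A D : Matrix ι ι ℂ) (r : ℝ) : ℝ :=
  (∑ k ∈ Finset.range 5,
    (Res A r * D * (Res A r * A) ^ k * (Res A r * D) * (Res A r * A) ^ (4 - k)).trace).re

/-- pointwise in `r` -/
theorem tn_fourth (A D : Matrix ι ι ℂ) (h r : ℝ) :
    tn A (D + (((2 * h : ℝ)) : ℂ) • A) 6 r + tn A (D - (((2 * h : ℝ)) : ℂ) • A) 6 r -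
      4 * (tn A (D + (h : ℂ) • A) 6 r + tn A (D - (h : ℂ) • A) 6 r) + 6 * tn A D 6 r =
      72 * h ^ 4 * wd A D r + 120 * h ^ 6 * tn A A 6 r := by
  have hw := word6 (Res A r * D) (Res A r * A) (h : ℂ)
  have e1 : ∀ y : ℂ, Res A r * (D + y • A) = Res A r * D + y • (Res A r * A) := by
    intro y
    rw [mul_add, mul_smul_comm]
  have e2 : ∀ y : ℂ, Res A r * (D - y • A) = Res A r * D - y • (Res A r * A) := by
    intro y
    rw [mul_sub, mul_smul_comm]
  unfold tn wd
  rw [e1, e2, e1, e2]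
  have hc : (((2 * h : ℝ)) : ℂ) = 2 * (h : ℂ) := by push_cast; ring
  rw [hc]
  have h1 := congrArg Complex.re hw
  have h2 : (72 * (h : ℂ) ^ 4) = (((72 * h ^ 4 : ℝ)) : ℂ) := by push_cast; ring
  have h3 : (120 * (h : ℂ) ^ 6) = (((120 * h ^ 6 : ℝ)) : ℂ) := by push_cast; ring
  have h4 : (4 : ℂ) = (((4 : ℝ)) : ℂ) := by push_cast; ring
  have h6 : (6 : ℂ) = (((6 : ℝ)) : ℂ) := by push_cast; ring
  rw [h2, h3, h4, h6] at h1
  simp only [Complex.add_re, Complex.sub_re, Complex.re_ofReal_mul] at h1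
  linarith

/-- the entries -/
theorem wd_dg {a : ι → ℝ} (ha : ∀ i, 0 < a i) {D : Matrix ι ι ℂ} (hD : D.IsHermitian) {r : ℝ}
    (hr : 0 ≤ r) : wd (dg a) D r = ∑ i, ∑ j, ‖D i j‖ ^ 2 * fk (a j) (a i) r := by
  have hne : ∀ k, a k + r ≠ 0 := fun k => by
    have := ha k
    positivity
  have hR : Res (dg a) r = Matrix.diagonal fun k => (((a k + r)⁻¹ : ℝ) : ℂ) := by
    rw [res_dg a r hne]
    rfl
  have hK : Res (dg a) r * dg a = Matrix.diagonal fun k => (((a k + r)⁻¹ * a k : ℝ) : ℂ) := by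
    rw [hR]
    unfold dg
    rw [Matrix.diagonal_mul_diagonal]
    congr 1
    funext k
    push_cast
    ring
  unfold wd fk
  rw [hK, hR]
  have key : ∀ k ∈ Finset.range 5,
      ((Matrix.diagonal fun k => (((a k + r)⁻¹ : ℝ) : ℂ)) * D *
        (Matrix.diagonal fun k => (((a k + r)⁻¹ * a k : ℝ) : ℂ)) ^ k *
        ((Matrix.diagonal fun k => (((a k + r)⁻¹ : ℝ) : ℂ)) * D) *
        (Matrix.diagonal fun k => (((a k + r)⁻¹ * a k : ℝ) : ℂ)) ^ (4 - k)).trace =
      ((∑ i, ∑ j, ‖D i j‖ ^ 2 * (a j ^ k * a i ^ (4 - k) /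
        ((a j + r) ^ (k + 1) * (a i + r) ^ (5 - k))) : ℝ) : ℂ) := by
    intro k hk
    have hk4 : k ≤ 4 := by
      have := Finset.mem_range.mp hk
      omega
    rw [Matrix.diagonal_pow, Matrix.diagonal_pow]
    unfold Matrix.trace
    push_cast
    apply Finset.sum_congr rfl
    intro i _
    rw [Matrix.diag_apply, Matrix.mul_diagonal, Matrix.mul_apply, Finset.sum_mul]
    apply Finset.sum_congr rfl
    intro j _
    rw [Matrix.mul_diagonal, Matrix.diagonal_mul, Matrix.diagonal_mul]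
    have hji : D j i = star (D i j) := by
      have := hD.apply j i
      rw [← this]
    have hn : (D i j) * (D j i) = ((‖D i j‖ ^ 2 : ℝ) : ℂ) := by
      rw [hji]
      have := Complex.mul_conj (D i j)
      rw [Complex.normSq_eq_norm_sq] at this
      exact this
    simp only [Pi.pow_apply]
    have hcj : ((a j : ℂ) + (r : ℂ)) ≠ 0 := by
      have := hne j
      exact_mod_cast this
    have hci : ((a i : ℂ) + (r : ℂ)) ≠ 0 := by
      have := hne i
      exact_mod_cast this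
    have h5 : 5 - k = (4 - k) + 1 := by omega
    rw [h5]
    have : ((‖D i j‖ : ℂ)) ^ 2 = D i j * D j i := by
      rw [hn]
      push_cast
      ring
    rw [this]
    push_cast
    rw [mul_pow, mul_pow, inv_pow, inv_pow]
    field_simp
    ring
  rw [Finset.sum_congr rfl key, ← Complex.ofReal_sum, Complex.ofReal_re, Finset.sum_comm]
  apply Finset.sum_congr rfl
  intro i _
  rw [Finset.sum_comm]
  apply Finset.sum_congr rfl
  intro j _
  rw [Finset.mul_sum]

theorem lin7 {μ : Measure ℝ} {g1 g2 g3 g4 g5 w k : ℝ → ℝ} (i1 : Integrable g1 μ)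
    (i2 : Integrable g2 μ) (i3 : Integrable g3 μ) (i4 : Integrable g4 μ) (i5 : Integrable g5 μ)
    (iw : Integrable w μ) (ik : Integrable k μ) (α β : ℝ)
    (h : ∀ r, g1 r + g2 r - 4 * (g3 r + g4 r) + 6 * g5 r = α * w r + β * k r) :
    (∫ r, g1 r ∂μ) + (∫ r, g2 r ∂μ) - 4 * ((∫ r, g3 r ∂μ) + (∫ r, g4 r ∂μ)) + 6 * (∫ r, g5 r ∂μ) =
      α * (∫ r, w r ∂μ) + β * (∫ r, k r ∂μ) := by
  have e := integral_congr_ae (μ := μ) (Filter.Eventually.of_forall h)
  have j12 : Integrable (fun r => g1 r + g2 r) μ := i1.add i2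
  have j34 : Integrable (fun r => 4 * (g3 r + g4 r)) μ := (i3.add i4).const_mul 4
  have j1234 : Integrable (fun r => g1 r + g2 r - 4 * (g3 r + g4 r)) μ := j12.sub j34
  have j5 : Integrable (fun r => 6 * g5 r) μ := i5.const_mul 6
  have jw : Integrable (fun r => α * w r) μ := iw.const_mul α
  have jk : Integrable (fun r => β * k r) μ := ik.const_mul β
  rw [integral_add j1234 j5, integral_sub j12 j34, integral_add i1 i2, integral_const_mul,
    integral_add i3 i4, integral_const_mul, integral_add jw jk, integral_const_mul,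
    integral_const_mul] at e
  exact e

/-- **The fourth difference of `In`.** -/
theorem In_fourth {a : ι → ℝ} (ha : ∀ i, 0 < a i) {D : Matrix ι ι ℂ} (hD : D.IsHermitian) {p : ℝ}
    (hp : 0 < p) (hp6 : p < 6)
    (feyn : ∀ x y : ℝ, 0 < x → 0 < y →
      IntegrableOn (fun r => r ^ (p - 1) * fk x y r) (Ioi 0) ∧
        ∫ r in Ioi (0 : ℝ), r ^ (p - 1) * fk x y r = 5 * bet p 6 * hk p x y) (h : ℝ) :
    In p (dg a) (D + (((2 * h : ℝ)) : ℂ) • dg a) 6 + In p (dg a) (D - (((2 * h : ℝ)) : ℂ) • dg a) 6 -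
      4 * (In p (dg a) (D + (h : ℂ) • dg a) 6 + In p (dg a) (D - (h : ℂ) • dg a) 6) +
      6 * In p (dg a) D 6 =
      360 * bet p 6 * h ^ 4 * (∑ i, ∑ j, ‖D i j‖ ^ 2 * hk p (a i) (a j)) +
        120 * h ^ 6 * In p (dg a) (dg a) 6 := by
  have hA : (dg a).PosDef := by
    unfold dg
    rw [Matrix.posDef_diagonal_iff]
    intro i
    have := ha i
    exact_mod_cast this
  have hp6' : p < ((6 : ℕ) : ℝ) := by
    push_cast
    exact hp6
  have it : ∀ E : Matrix ι ι ℂ, IntegrableOn (fun r => r ^ (p - 1) * tn (dg a) E 6 r) (Ioi 0) :=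
    fun E => integrableOn_tn p (dg a) E hA 6 hp hp6'
  have hwd : ∫ r in Ioi (0 : ℝ), r ^ (p - 1) * wd (dg a) D r =
      5 * bet p 6 * ∑ i, ∑ j, ‖D i j‖ ^ 2 * hk p (a i) (a j) := by
    have e1 : ∫ r in Ioi (0 : ℝ), r ^ (p - 1) * wd (dg a) D r =
        ∫ r in Ioi (0 : ℝ), ∑ i, ∑ j, ‖D i j‖ ^ 2 * (r ^ (p - 1) * fk (a j) (a i) r) := by
      apply setIntegral_congr_fun measurableSet_Ioi
      intro r hr
      have hr0 : (0 : ℝ) < r := hr
      show r ^ (p - 1) * wd (dg a) D r = ∑ i, ∑ j, ‖D i j‖ ^ 2 * (r ^ (p - 1) * fk (a j) (a i) r)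
      rw [wd_dg ha hD hr0.le, Finset.mul_sum]
      apply Finset.sum_congr rfl
      intro i _
      rw [Finset.mul_sum]
      apply Finset.sum_congr rfl
      intro j _
      ring
    rw [e1, integral_finset_sum]
    · have e2 : ∀ i, ∫ r in Ioi (0 : ℝ), ∑ j, ‖D i j‖ ^ 2 * (r ^ (p - 1) * fk (a j) (a i) r) =
          ∑ j, ‖D i j‖ ^ 2 * (5 * bet p 6 * hk p (a j) (a i)) := by
        intro i
        rw [integral_finset_sum]
        · apply Finset.sum_congr rfl
          intro j _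
          rw [integral_const_mul, (feyn (a j) (a i) (ha j) (ha i)).2]
        · intro j _
          exact (feyn (a j) (a i) (ha j) (ha i)).1.const_mul _
      rw [Finset.sum_congr rfl fun i _ => e2 i, Finset.sum_comm, Finset.mul_sum]
      apply Finset.sum_congr rfl
      intro i _
      rw [Finset.mul_sum]
      apply Finset.sum_congr rfl
      intro j _
      have : ‖D j i‖ = ‖D i j‖ := by
        rw [← hD.apply i j, norm_star]
      rw [this]
      ring
    · intro i _
      exact integrable_finset_sum _ fun j _ => (feyn (a j) (a i) (ha j) (ha i)).1.const_mul _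
  have iw : IntegrableOn (fun r => r ^ (p - 1) * wd (dg a) D r) (Ioi 0) := by
    have h1 : IntegrableOn (fun r => ∑ i, ∑ j, ‖D i j‖ ^ 2 * (r ^ (p - 1) * fk (a j) (a i) r))
        (Ioi 0) :=
      integrable_finset_sum _ fun i _ => integrable_finset_sum _ fun j _ =>
        (feyn (a j) (a i) (ha j) (ha i)).1.const_mul _
    refine IntegrableOn.congr_fun h1 ?_ measurableSet_Ioi
    intro r hr
    have hr0 : (0 : ℝ) < r := hr
    show ∑ i, ∑ j, ‖D i j‖ ^ 2 * (r ^ (p - 1) * fk (a j) (a i) r) = r ^ (p - 1) * wd (dg a) D r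
    rw [wd_dg ha hD hr0.le, Finset.mul_sum]
    apply Finset.sum_congr rfl
    intro i _
    rw [Finset.mul_sum]
    apply Finset.sum_congr rfl
    intro j _
    ring
  have main := lin7 (it (D + (((2 * h : ℝ)) : ℂ) • dg a)) (it (D - (((2 * h : ℝ)) : ℂ) • dg a))
    (it (D + (h : ℂ) • dg a)) (it (D - (h : ℂ) • dg a)) (it D) iw (it (dg a)) (72 * h ^ 4)
    (120 * h ^ 6) (by
      intro r
      have := tn_fourth (dg a) D h r
      linear_combination (r ^ (p - 1)) * this)
  rw [hwd] at main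
  unfold In
  linarith

end Pool.Agent.Lib_helper54.GC56
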